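import Mathlib
import Pool.Agent.Lib.MP_a0554b_an.Defs
import Pool.Agent.Lib.MP_a0554b_an.L6

set_option autoImplicit false

/-!
# Block-homogeneous spaces containing `c_0` or `ℓ_p`

`X` is a Banach space with any Schauder basis `b` (Mathlib's `SchauderBasis`), real or complex.
If every block subspace of `X` is isomorphic to `X` and `X` contains a subspace isomorphic to
`c_0` or to `ℓ_q` for some `1 ≤ q < ∞` (for `q = 1` the basis is assumed boundedly complete up to
a finite dimensional defect), then `X` itself is isomorphic to that space, and there is a constant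
`C` such that every block subspace of `X` is `C`-isomorphic to `X`.
-/

namespace Pool.Agent.Results.MP_a0554b_an.ContainsClassical

open Pool.Agent.Lib.MP_a0554b_an
open scoped ENNReal ZeroAtInfty

universe u v

theorem result {𝕜 : Type v} [RCLike 𝕜] {X : Type u} [NormedAddCommGroup X] [NormedSpace 𝕜 X]
    [CompleteSpace X] (b : SchauderBasis 𝕜 X) (hb : BlockHomogeneous b) :
    (∀ (q : ℝ≥0∞) [Fact (1 ≤ q)], q < ∞ → (q = 1 → ∃ m, BoundedlyCompleteUpTo b m) →
      Contains 𝕜 (lp (fun _ : ℕ => 𝕜) q) X →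
        Nonempty (X ≃L[𝕜] lp (fun _ : ℕ => 𝕜) q) ∧ ∃ C : ℝ, BlockHomogeneousWith b C) ∧
    (Contains 𝕜 C₀(ℕ, 𝕜) X →
      Nonempty (X ≃L[𝕜] C₀(ℕ, 𝕜)) ∧ ∃ C : ℝ, BlockHomogeneousWith b C) := by
  refine ⟨fun q hq h2 hbc h => ?_, fun h => ?_⟩
  · obtain ⟨e⟩ := iso_lp (𝕜 := 𝕜) h2.ne
    obtain ⟨e'⟩ := iso_of_contains b hb (contains_of_iso e h)
    refine ⟨⟨e'.trans e.symm⟩, ?_⟩
    rcases eq_or_ne q 1 with rfl | hq1
    · obtain ⟨m, hm⟩ := hbc rfl
      exact uniform_of_contains_one b hb hm (contains_of_iso e h)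
    · exact uniform_of_contains (lt_of_le_of_ne hq.out hq1.symm) b hb (contains_of_iso e h)
  · obtain ⟨e⟩ := iso_c0 (𝕜 := 𝕜)
    obtain ⟨e'⟩ := iso_of_contains b hb (contains_of_iso e h)
    exact ⟨⟨e'.trans e.symm⟩, uniform_of_contains (p := ∞) (by simp) b hb (contains_of_iso e h)⟩

end Pool.Agent.Results.MP_a0554b_an.ContainsClassical
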