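import Mathlib
import Pool.Agent.Lib.MP_a0554b_an.P.Z3

set_option autoImplicit false

/-!
# Block-homogeneous spaces: uniformity results for general unconditional bases

`X` is a real or complex Banach space with a Schauder basis `b`, and every block subspace of `X` is
isomorphic to `X`.

* If `b` is shrinking, then there is `M` such that for all block sequences `y`, `y₀` some subsequence
  of `y` is `M`-equivalent to a block sequence of `y₀`.
* If `b` is unconditional, then there is a constant `C` such that `X × Y` is `C`-isomorphic to `X` for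
  all block subspaces `Y`.
* If `b` is unconditional, then either all block subspaces are `C`-isomorphic to `X` for some `C`, or
  `b` is shrinking and for every block sequence `y₀` and every `C` there is a block sequence `y` of
  `y₀` such that no subsequence of `y` spans a space `C`-isomorphic to `X`, and no subspace of the
  closed span of `y` which is isomorphic to `X` is complemented in the closed span of `y₀`.
-/

namespace Pool.Agent.Results.MP_a0554b_an.UnconditionalDichotomy

open Pool.Agent.Lib.MP_a0554b_an Pool.Agent.Lib.MP_a0554b_an.P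

universe u v

theorem result {𝕜 : Type v} [RCLike 𝕜] {X : Type u} [NormedAddCommGroup X] [NormedSpace 𝕜 X]
    [CompleteSpace X] (b : SchauderBasis 𝕜 X) (hb : BlockHomogeneous b) :
    (Shrinking b → ∃ M : ℝ, ∀ y y₀ : ℕ → X, IsBlock b y → IsBlock b y₀ →
      ∃ (w : ℕ → X) (j : ℕ → ℕ), BlockOf b y₀ w ∧ StrictMono j ∧
        Equi 𝕜 M w (fun k => y (j k))) ∧
    (Unconditional b →
      (∃ C : ℝ, ∀ y : ℕ → X, IsBlock b y → IsoC 𝕜 C (X × closedSpan 𝕜 y) X) ∧
      ((∃ C : ℝ, BlockHomogeneousWith b C) ∨
        (Shrinking b ∧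
          ∀ (y₀ : ℕ → X) (C : ℝ), IsBlock b y₀ → ∃ y : ℕ → X, BlockOf b y₀ y ∧
            (∀ j : ℕ → ℕ, StrictMono j → ¬ IsoC 𝕜 C (closedSpan 𝕜 (fun k => y (j k))) X) ∧
            ∀ Z : Submodule 𝕜 X, Z ≤ closedSpan 𝕜 y → Nonempty (Z ≃L[𝕜] X) →
              ¬ ComplementedIn Z (closedSpan 𝕜 y₀)))) := by
  refine ⟨fun hs => exists_embed b hs hb, fun hu => ⟨absorb_isoC b hu hb, ?_⟩⟩
  by_cases hn : ∃ C : ℝ, BlockHomogeneousWith b C
  · exact Or.inl hn
  · exact Or.inr ⟨(uniform_or_shrinking b hu hb).resolve_left hn,
      fun y₀ C hy₀ => not_uniform b hu hb hn y₀ C hy₀⟩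

end Pool.Agent.Results.MP_a0554b_an.UnconditionalDichotomy
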